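import Mathlib

/-!
# A simple nuclear C*-algebra not isomorphic to its opposite: topological definitions, statements

Paper proof in `Pool/Agent/H53/OPP/README.md`.
-/

set_option autoImplicit false

namespace Pool.OP

open scoped ComplexConjugate Uniformity

noncomputable section

/-! ### Box sums over flags, with signs -/

/-- Vertex number `r` of the flag `(w, e, τ)` of the cubical grid: the coordinate `c` is even
(equal to `2 w c + 2 e c`) if `τ c < r`, and odd (equal to `2 w c + 1`) otherwise. -/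
def vt {N : ℕ} (w : Fin N → ℕ) (e : Fin N → Bool) (τ : Equiv.Perm (Fin N)) (r : ℕ) :
    Fin N → ℕ :=
  fun c => if (τ c : ℕ) < r then 2 * w c + 2 * (e c).toNat else 2 * w c + 1

/-- The signed sum over all flags of the box with `M c` cells in the direction `c`. -/
def BS {R : Type} [CommRing R] {N : ℕ} (M : Fin N → ℕ) (Φ : (ℕ → Fin N → ℕ) → R) : R :=
  ∑ w ∈ Fintype.piFinset (fun c => Finset.range (M c)), ∑ e : Fin N → Bool,
    ∑ τ : Equiv.Perm (Fin N),
      ((Equiv.Perm.sign τ : ℤ) : R) * (∏ c, (-1 : R) ^ (e c).toNat) * Φ (vt w e τ)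

/-- The coboundary -/
def dl {R P : Type} [CommRing R] (N : ℕ) (Ψ : (ℕ → P) → R) (y : ℕ → P) : R :=
  ∑ r ∈ Finset.range (N + 2), (-1 : R) ^ r * Ψ (fun i => if i < r then y i else y (i + 1))

/-- MODULE STK: Stokes formula for the box sums. -/
def STKStmt : Prop :=
  ∀ (R : Type) [CommRing R] (N : ℕ) (M : Fin (N + 1) → ℕ)
    (Ψ : (ℕ → Fin (N + 1) → ℕ) → R),
    (∀ y y' : ℕ → Fin (N + 1) → ℕ, (∀ i ≤ N, y i = y' i) → Ψ y = Ψ y') →
    BS M (dl N Ψ) = ∑ c : Fin (N + 1), (-1 : R) ^ (c : ℕ) *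
      (BS (fun a => M (c.succAbove a)) (fun y => Ψ (fun i => c.insertNth 0 (y i)))
        - BS (fun a => M (c.succAbove a)) (fun y => Ψ (fun i => c.insertNth (2 * M c) (y i))))

/-- `±1` if the three labels are distinct, `0` otherwise -/
def tri (a b c : ZMod 3) : ℤ :=
  if b = a + 1 ∧ c = b + 1 then 1 else if a = b + 1 ∧ b = c + 1 then -1 else 0

/-- radial coordinates -/
def rc {n : ℕ} (p : Fin (2 * n) → ℕ) : Fin n → ℕ := fun k => p ⟨2 * (k : ℕ), by omega⟩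

/-- phase coordinates -/
def pc {n : ℕ} (p : Fin (2 * n) → ℕ) : Fin n → ℕ := fun k => p ⟨2 * (k : ℕ) + 1, by omega⟩

/-- number of cells: `m` in the radial directions, `3 m` in the phase directions -/
def Mc (n m : ℕ) : Fin (2 * n) → ℕ := fun c => if (c : ℕ) % 2 = 0 then m else 3 * m

/-- The rules for the parametrisation `Xi` (first argument: radial coordinates in `{0..2m}`, second
argument: phase coordinates in `{0..6m}`) of the product of spheres. -/
structure Rules {n : ℕ} (m : ℕ) (ty : Fin n → ℕ) (X : Type) (g : ℕ → X → X)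
    (Xi : (Fin n → ℕ) → (Fin n → ℕ) → X) : Prop where
  k1 : ∀ (k : Fin n) (r φ : Fin n → ℕ), φ k = 6 * m → Xi r φ = Xi r (Function.update φ k 0)
  k2 : ∀ (k : Fin n) (r φ : Fin n → ℕ) (t : ℕ), r k = 2 * m → t % 2 = φ k % 2 →
    Xi r (Function.update φ k t) = Xi r φ
  k3 : ∀ (k' k : Fin n) (r φ : Fin n → ℕ) (t : ℕ), k' < k → ty k' = ty k →
    (∀ c, k' < c → c < k → ty c ≠ ty k) → r k = 0 → t % 2 = φ k' % 2 →
    Xi r (Function.update φ k' t) = Xi r φ
  k4 : ∀ (k : Fin n) (r φ φ' : Fin n → ℕ), (∀ c < k, ty c ≠ ty k) → r k = 0 →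
    (∀ c, ty c = ty k → φ' c = φ c + 2 * m ∨ φ c = φ' c + 4 * m) →
    (∀ c, ty c ≠ ty k → φ' c = φ c) → Xi r φ' = g (ty k) (Xi r φ)

/-- MODULE CMB: the combinatorial theorem. -/
def CMBStmt : Prop :=
  ∀ (n m : ℕ), 0 < m → ∀ (ty : Fin (n + 1) → ℕ) (X : Type) (g : ℕ → X → X)
    (Xi : (Fin (n + 1) → ℕ) → (Fin (n + 1) → ℕ) → X), Rules m ty X g Xi →
    ∀ (u : Fin (n + 1) → X → ZMod 3) (e : X → X → ZMod 3),
      (∀ i, ∀ l ∈ Set.range ty, ∀ x, u i (g l x) = u i x + if l = ty i then 1 else 0) →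
      (∀ l ∈ Set.range ty, ∀ x y, e (g l x) (g l y) = e x y) →
      BS (R := ZMod 3) (Mc (n + 1) m) (fun y =>
        let Y : ℕ → X := fun i => Xi (rc (y i)) (pc (y i))
        ((tri (u 0 (Y 0)) (u 0 (Y 1)) (u 0 (Y 2)) : ZMod 3)
            - (e (Y 0) (Y 1) + e (Y 1) (Y 2) - e (Y 0) (Y 2))) *
          ∏ i : Fin n, (tri (u i.succ (Y (2 * (i : ℕ) + 2))) (u i.succ (Y (2 * (i : ℕ) + 3)))
            (u i.succ (Y (2 * (i : ℕ) + 4))) : ZMod 3)) = (-1) ^ (n + 1)

/-! ### Complex spheres -/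

/-- the unit sphere of `ℂ^(N+1)` -/
abbrev CSph (N : ℕ) := Metric.sphere (0 : EuclideanSpace ℂ (Fin (N + 1))) 1

/-- the cube root of unity `exp(2πi/3)` -/
def om : ℂ := Complex.exp (2 * Real.pi * Complex.I / 3)

theorem norm_om : ‖om‖ = 1 := by
  unfold om
  rw [show (2 * Real.pi * Complex.I / 3 : ℂ) = ((2 * Real.pi / 3 : ℝ) : ℂ) * Complex.I by
    push_cast; ring]
  exact Complex.norm_exp_ofReal_mul_I _

/-- rotation of one sphere by `om` -/
def rotS {N : ℕ} (x : CSph N) : CSph N :=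
  ⟨om • x.1, by
    have h := x.2
    rw [mem_sphere_zero_iff_norm] at h ⊢
    rw [norm_smul, h, norm_om, one_mul]⟩

/-- rotation of the coordinate `l` -/
def rot {N : ℕ → ℕ} (l : ℕ) (x : (j : ℕ) → CSph (N j)) : (j : ℕ) → CSph (N j) :=
  Function.update x l (rotS (x l))

/-- MODULE SP: polar coordinates on products of complex spheres: first argument radial angles,
second argument phases. -/
def SPStmt : Prop :=
  ∀ (N : ℕ → ℕ) (n : ℕ) (ty : Fin n → ℕ), (∀ j, Fintype.card {i // ty i = j} ≤ N j) →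
    ∃ X : (Fin n → ℝ) → (Fin n → ℝ) → ((j : ℕ) → CSph (N j)),
      Continuous (fun p : (Fin n → ℝ) × (Fin n → ℝ) => X p.1 p.2) ∧
      (∀ (k : Fin n) (ρ θ : Fin n → ℝ),
        X ρ (Function.update θ k (θ k + 2 * Real.pi)) = X ρ θ) ∧
      (∀ (k : Fin n) (ρ θ : Fin n → ℝ) (t : ℝ), Real.cos (ρ k) = 0 →
        X ρ (Function.update θ k t) = X ρ θ) ∧
      (∀ (k' k : Fin n) (ρ θ : Fin n → ℝ) (t : ℝ), k' < k → ty k' = ty k →
        (∀ c, k' < c → c < k → ty c ≠ ty k) → Real.sin (ρ k) = 0 →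
        X ρ (Function.update θ k' t) = X ρ θ) ∧
      (∀ (k : Fin n) (ρ θ : Fin n → ℝ), (∀ c < k, ty c ≠ ty k) → Real.sin (ρ k) = 0 →
        X ρ (fun c => if ty c = ty k then θ c + 2 * Real.pi / 3 else θ c)
          = rot (ty k) (X ρ θ))

/-- MODULE LB: labels on spheres -/
def LBStmt : Prop :=
  ∀ N : ℕ, ∃ u : CSph N → ZMod 3, ∀ x, u (rotS x) = u x + 1

/-- MODULE TOP: there is no `ℤ/9`-lift of the label of the sphere number `0` near the common
zero set of the functions `g i` (which are equivariant for the rotation of one sphere). -/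
def TOPStmt : Prop :=
  ∀ (N : ℕ → ℕ) (J : Finset ℕ) (ι : Type) [Fintype ι] (ty : ι → ℕ),
    0 ∉ J → 1 ≤ N 0 → (∀ i, ty i ∈ J) → (∀ j, Fintype.card {i // ty i = j} ≤ N j) →
    ∀ g : ι → ((j : ℕ) → CSph (N j)) → ℂ, (∀ i, Continuous (g i)) →
      (∀ i, ∀ l ∈ insert 0 J, ∀ x, g i (rot l x) = if l = ty i then om * g i x else g i x) →
    ∀ (η : ℝ), 0 < η → ∀ V ∈ 𝓤 ((j : ℕ) → CSph (N j)),
    ∀ (u : ((j : ℕ) → CSph (N j)) → ZMod 3)
      (κ : ((j : ℕ) → CSph (N j)) → ((j : ℕ) → CSph (N j)) → ZMod 9),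
      (∀ l ∈ insert 0 J, ∀ x, u (rot l x) = u x + if l = 0 then 1 else 0) →
      (∀ l ∈ insert 0 J, ∀ x y, κ (rot l x) (rot l y) = κ x y) →
      (∀ x y w, (∀ i, ‖g i x‖ < η) → (∀ i, ‖g i y‖ < η) → (∀ i, ‖g i w‖ < η) →
        (x, y) ∈ V → (y, w) ∈ V → (x, w) ∈ V →
        κ x y + κ y w = κ x w ∧ ((κ x y).cast : ZMod 3) = u y - u x) → False

end

end Pool.OP
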