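import Mathlib
import Pool.Agent.H53.OPP.TopDefs

/-!
# A simple nuclear C*-algebra not isomorphic to its opposite: definitions and statements (C*-part)

Paper proof in `Pool/Agent/H53/OPP/README.md`.
-/

set_option autoImplicit false

namespace Pool.OP

open scoped Topology ComplexConjugate

noncomputable section

/-! ### Labels -/

/-- `E_a` has dimension `da`, `E_0 = E_a + ℂ e_*` dimension `da + 1 = 93` -/
def da : ℕ := 92

/-- dimensions of the small blocks -/
def ww : Fin 4 → ℕ := ![90, 84, 72, 48]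

/-- basis of the first block `ℂ^387` -/
abbrev Lab := Fin (da + 1) ⊕ (Σ j : Fin 4, Fin (ww j))

/-- the small block containing the label (`none` for `E_0`) -/
def part : Lab → Option (Fin 4)
  | Sum.inl _ => none
  | Sum.inr p => some p.1

/-- the special label -/
def lstar : Lab := Sum.inl (Fin.last da)

/-- labels of `E_a` -/
def la (k : Fin da) : Lab := Sum.inl k.castSucc

/-- label of the small block `j` -/
def ls (j : Fin 4) (k : Fin (ww j)) : Lab := Sum.inr ⟨j, k⟩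

theorem da_pos : 0 < da := by unfold da; norm_num

theorem ww_pos (j : Fin 4) : 0 < ww j := by
  fin_cases j <;> simp [ww]

/-- first label of `E_a` -/
def k0 : Fin da := ⟨0, da_pos⟩

/-- first label of the small block `j` -/
def j0 (j : Fin 4) : Fin (ww j) := ⟨0, ww_pos j⟩

open Classical in
/-- weight of a label -/
def wt (α : Lab) : ℕ := if α = lstar then 1 else 0

/-! ### The elements of the first algebra -/

/-- index set of the finitely many elements of the first algebra -/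
inductive DI
  | ea (k l : Fin da)
  | ej (j : Fin 4) (k l : Fin (ww j))
  | tt (β : Fin 2)
  | cc (j : Fin 4)
  | cd (j : Fin 4)
  | bb (j : Fin 4)
deriving DecidableEq, Fintype

/-- sign vectors of a regular tetrahedron -/
def sg : Fin 4 → Fin 3 → ℂ := ![![1, 1, 1], ![1, -1, -1], ![-1, 1, -1], ![-1, -1, 1]]

/-- the four linear functions of a `2 × 2` matrix -/
def tauM (j : Fin 4) (c : Fin 2 → Fin 2 → ℂ) : ℂ :=
  sg j 0 * (c 1 0 + c 0 1) - sg j 1 * Complex.I * (c 1 0 - c 0 1) + sg j 2 * (c 0 0 - c 1 1)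

/-- the projection onto the line of `y` -/
def prj (y : CSph 1) : Fin 2 → Fin 2 → ℂ :=
  fun γ β => (y.1 γ) * conj (y.1 β)

/-- the four real functions on the sphere `S^3` (pulled back from `S^2`), with sum zero -/
def tau (j : Fin 4) (y : CSph 1) : ℝ := (tauM j (prj y)).re

/-- the function `b_j` -/
def bf (j : Fin 4) (y : CSph 1) : ℝ := max 0 (tau j y)

/-- the function `b'_j` -/
def bf' (j : Fin 4) (y : CSph 1) : ℝ := max 0 (-tau j y)

/-! ### The base space and the Hilbert space -/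

/-- (half) dimensions of the spheres -/
def NN : ℕ → ℕ
  | 0 => 1
  | (j + 1) => 4 * Fintype.card DI * Fintype.card Lab ^ 3 * (Fintype.card Lab + 1) ^ j

/-- the base space: a product of complex spheres -/
abbrev SS := (j : ℕ) → CSph (NN j)

/-- the first coordinate -/
def x0 (x : SS) : CSph 1 := x 0

/-- basis of the Hilbert space -/
abbrev Om := (ℕ → Option Lab) × Lab

abbrev HH := lp (fun _ : Om => ℂ) 2

abbrev BH := HH →L[ℂ] HH

/-- the ambient C*-algebra -/
abbrev BB := C(SS, BH)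

instance instBB : CStarAlgebra BB := inferInstance
instance instBBNormedRing : NormedRing BB := instBB.toNormedRing
instance instBBRing : Ring BB := instBBNormedRing.toRing
instance instBBSemiring : Semiring BB := instBBRing.toSemiring
instance instBBStarRing : StarRing BB := instBB.toStarRing
instance instBBAlgebra : Algebra ℂ BB := instBB.toNormedAlgebra.toAlgebra
instance instBBStarModule : StarModule ℂ BB := instBB.toStarModule
instance instBBTopRing : IsTopologicalRing BB := inferInstance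
instance instBBTopSemiring : IsTopologicalSemiring BB := inferInstance
instance instBBContinuousStar : ContinuousStar BB := inferInstance

open Classical in
/-- basis vector -/
def bv (ω : Om) : HH := lp.single 2 ω (1 : ℂ)

/-- matrix coefficient `⟨e_ω, f e_ω'⟩` -/
def mc (f : BH) (ω ω' : Om) : ℂ := (f (bv ω') : Om → ℂ) ω

/-! ### Levels -/

/-- index set of the stage `k` -/
abbrev Lam (k : ℕ) := (Fin k → Option Lab) × Lab

open Classical in
/-- the first occupied position `≥ k` (`none` if there is none) -/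
def qq (k : ℕ) (ω : Om) : Option ℕ :=
  if h : ∃ i, k ≤ i ∧ ω.1 i ≠ none then some (Nat.find h) else none

/-- the active label: the label at the first occupied position `≥ k`, or the last label -/
def acl (k : ℕ) (ω : Om) : Lab :=
  match qq k ω with
  | none => ω.2
  | some m => (ω.1 m).getD ω.2

/-- the part of `ω` seen by the stage `k` -/
def lam (k : ℕ) (ω : Om) : Lam k := (fun i => ω.1 i, acl k ω)

/-- replace the part of `ω` seen by the stage `k` by `t` -/
def gl (k : ℕ) (t : Lam k) (ω : Om) : Om :=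
  (fun i => if h : i < k then t.1 ⟨i, h⟩ else if qq k ω = some i then some t.2 else ω.1 i,
    if qq k ω = none then t.2 else ω.2)

/-- inclusion of `Lam k` in `Om` -/
def inj (k : ℕ) (t : Lam k) : Om := (fun i => if h : i < k then t.1 ⟨i, h⟩ else none, t.2)

/-- the basis vectors of the first block -/
def inj0 (α : Lab) : Om := (fun _ => none, α)

open Classical in
/-- The operator `e_ω ↦ [lam k ω = t] φ (gl k s ω) e_(gl k s ω)` (for bounded `φ`). -/
def el (k : ℕ) (s t : Lam k) (φ : Om → ℂ) : BH :=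
  Classical.epsilon (fun W : BH => ∀ (ξ : HH) (ω : Om),
    (W ξ : Om → ℂ) ω = if lam k ω = s then φ ω * (ξ : Om → ℂ) (gl k t ω) else 0)

/-- `φ` does not depend on the part of `ω` seen by the stage `k` -/
def Inv (k : ℕ) (φ : Om → ℂ) : Prop := ∀ t ω, φ (gl k t ω) = φ ω

open Classical in
/-- MODULE EL -/
def ELStmt : Prop :=
  (∀ (k : ℕ) (s t : Lam k) (ω : Om), lam k (gl k t ω) = t ∧ gl k s (gl k t ω) = gl k s ω ∧
    gl k (lam k ω) ω = ω ∧ qq k (gl k t ω) = qq k ω ∧ lam k (inj k t) = t ∧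
    qq k (inj k t) = none ∧ gl k s (inj k t) = inj k s) ∧
  ∀ (k : ℕ) (s t : Lam k) (φ : Om → ℂ) (C : ℝ), (∀ ω, ‖φ ω‖ ≤ C) →
    (∀ (ξ : HH) (ω : Om), (el k s t φ ξ : Om → ℂ) ω =
      if lam k ω = s then φ ω * (ξ : Om → ℂ) (gl k t ω) else 0) ∧ ‖el k s t φ‖ ≤ C

open Classical in
/-- MODULE ELA: the algebra of the operators `el`. -/
def ELAStmt : Prop :=
  (∀ f g : BH, (∀ ω ω', mc f ω ω' = mc g ω ω') → f = g) ∧
  (∀ (k : ℕ) (s t : Lam k) (φ : Om → ℂ) (C : ℝ), (∀ ω, ‖φ ω‖ ≤ C) → Inv k φ →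
      (∀ ω, el k s t φ (bv ω) = if lam k ω = t then φ ω • bv (gl k s ω) else 0) ∧
      (∀ ω ω', mc (el k s t φ) ω ω' = if lam k ω = s ∧ lam k ω' = t ∧ gl k t ω = ω'
        then φ ω else 0) ∧
      star (el k s t φ) = el k t s (fun ω => conj (φ ω)) ∧
      (∀ (t' r : Lam k) (ψ : Om → ℂ) (D : ℝ), (∀ ω, ‖ψ ω‖ ≤ D) → Inv k ψ →
          el k s t φ * el k t' r ψ = if t = t' then el k s r (fun ω => φ ω * ψ ω) else 0) ∧
      (∀ (ψ : Om → ℂ) (D : ℝ), (∀ ω, ‖ψ ω‖ ≤ D) →
        el k s t φ + el k s t ψ = el k s t (fun ω => φ ω + ψ ω)) ∧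
      (∀ c : ℂ, c • el k s t φ = el k s t (fun ω => c * φ ω))) ∧
  (∀ k : ℕ, ∑ s : Lam k, el k s s (fun _ => 1) = 1)

/-- the point at which the block is evaluated -/
def pt (z : ℕ → SS) (x : SS) : Option ℕ → SS
  | none => x
  | some m => z m

open Classical in
/-- the function `x ↦ el k s t (ω ↦ h (pt z x (qq k ω)))` -/
def G (z : ℕ → SS) (k : ℕ) (s t : Lam k) (h : C(SS, ℂ)) : BB :=
  if hc : Continuous (fun x => el k s t (fun ω => h (pt z x (qq k ω)))) then
    ⟨fun x => el k s t (fun ω => h (pt z x (qq k ω))), hc⟩ else 0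

open Classical in
/-- MODULE GA: the elements `G` -/
def GAStmt : Prop :=
  ∀ (z : ℕ → SS) (k : ℕ),
    (∀ (s t : Lam k) (h : C(SS, ℂ)),
      (∀ x, G z k s t h x = el k s t (fun ω => h (pt z x (qq k ω)))) ∧ ‖G z k s t h‖ ≤ ‖h‖ ∧
      (∀ x ω ω', mc (G z k s t h x) ω ω' = if lam k ω = s ∧ lam k ω' = t ∧ gl k t ω = ω'
        then h (pt z x (qq k ω)) else 0) ∧
      star (G z k s t h) = G z k t s (star h) ∧
      (∀ (t' r : Lam k) (h' : C(SS, ℂ)),
        G z k s t h * G z k t' r h' = if t = t' then G z k s r (h * h') else 0) ∧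
      (∀ h' : C(SS, ℂ), G z k s t h + G z k s t h' = G z k s t (h + h')) ∧
      (∀ c : ℂ, c • G z k s t h = G z k s t (c • h))) ∧
    ∑ s : Lam k, G z k s s 1 = 1

/-- the representation of the stage `k` -/
def Gam (z : ℕ → SS) (k : ℕ) (F : Lam k → Lam k → C(SS, ℂ)) : BB :=
  ∑ s, ∑ t, G z k s t (F s t)

/-! ### The stages -/

open Classical in
/-- weight of `ω` for the rotation of the sphere number `l`: the weight of the last label for
`l = 0`; for `l = i + 1` it is `1` if `i` is the last occupied position, `0` otherwise -/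
def wl : ℕ → Om → ℕ
  | 0, ω => wt ω.2
  | (l + 1), ω => if ω.1 l ≠ none ∧ ∀ i, l < i → ω.1 i = none then 1 else 0

/-- exactly one of the labels is in the small block `j` -/
def mis (j : Fin 4) (α β : Lab) : Prop := ¬ (part α = some j ↔ part β = some j)

/-- allowed entries of the stage `k` -/
structure InS (k : ℕ) (s t : Lam k) (h : C(SS, ℂ)) : Prop where
  dep : ∀ x y : SS, (∀ j ≤ k, x j = y j) → h x = h y
  eq : ∀ l x, h (rot l x) = om ^ wl l (inj k s) * conj om ^ wl l (inj k t) * h x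
  bd : ∀ j x, bf j (x0 x) = 0 → mis j s.2 t.2 → h x = 0

/-- the stage `k` -/
def Ak (z : ℕ → SS) (k : ℕ) : Set BB :=
  {a | ∃ F : Lam k → Lam k → C(SS, ℂ), (∀ s t, InS k s t (F s t)) ∧ a = Gam z k F}

/-- the dense subalgebra -/
def A0 (z : ℕ → SS) : StarSubalgebra ℂ BB := StarAlgebra.adjoin ℂ (⋃ k, Ak z k)

/-- MODULE ST: the stages form an increasing sequence of star subalgebras -/
def STStmt : Prop :=
  ∀ z : ℕ → SS, (∀ k, Ak z k ⊆ Ak z (k + 1)) ∧
    ((A0 z : StarSubalgebra ℂ BB) : Set BB) = ⋃ k, Ak z k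

/-- The C*-algebra -/
abbrev AA (z : ℕ → SS) : StarSubalgebra ℂ BB := (A0 z).topologicalClosure

instance instAAClosed (z : ℕ → SS) : IsClosed ((AA z : StarSubalgebra ℂ BB) : Set BB) :=
  StarSubalgebra.isClosed_topologicalClosure _

instance instAA (z : ℕ → SS) : CStarAlgebra (AA z) := StarSubalgebra.cstarAlgebra (AA z)
instance instAANormedRing (z : ℕ → SS) : NormedRing (AA z) := (instAA z).toNormedRing
instance instAARing (z : ℕ → SS) : Ring (AA z) := (instAANormedRing z).toRing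
instance instAAComplete (z : ℕ → SS) : CompleteSpace (AA z) := (instAA z).toCompleteSpace

/-- MODULE CO: coefficients of the elements of the algebra -/
def COStmt : Prop :=
  ∀ z : ℕ → SS,
    (∀ a ∈ AA z, ∀ (x : SS) (ω ω' : Om),
      (∀ l, mc (a (rot l x)) ω ω' = om ^ wl l ω * conj om ^ wl l ω' * mc (a x) ω ω') ∧
      (∀ j, bf j (x0 x) = 0 → mis j ω.2 ω'.2 → mc (a x) ω ω' = 0)) ∧
    (∀ (k : ℕ) (F : Lam k → Lam k → C(SS, ℂ)) (x : SS),
      (∀ s t, mc (Gam z k F x) (inj k s) (inj k t) = F s t x) ∧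
      (∀ (ω : Om) (α : Lab), (∃ i, k ≤ i ∧ ω.1 i ≠ none) →
        mc (Gam z k F x) ω (inj0 α) = 0 ∧ mc (Gam z k F x) (inj0 α) ω = 0)) ∧
    (∀ (ω ω' : Om), ‖bv ω‖ = 1 ∧ (∀ f : BH, ‖mc f ω ω'‖ ≤ ‖f‖) ∧
      ∀ f : BB, Continuous (fun x => mc (f x) ω ω'))

/-- every tail of the sequence `z` is dense -/
def DenseZ (z : ℕ → SS) : Prop := ∀ k, Dense {y | ∃ m, k ≤ m ∧ z m = y}

/-- MODULE ZE -/
def ZEStmt : Prop := ∃ z : ℕ → SS, DenseZ z

/-- MODULE SE -/
def SEStmt : Prop := ∀ z : ℕ → SS, TopologicalSpace.SeparableSpace (AA z)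

/-- MODULE SI -/
def SIStmt : Prop := ∀ z : ℕ → SS, DenseZ z → Nontrivial (AA z) ∧
  ∀ I : TwoSidedIdeal (AA z), I = ⊥ ∨ I = ⊤

/-- MODULE NU -/
def NUStmt : Prop := ∀ z : ℕ → SS,
  (∀ F : Finset (AA z), ∀ ε : ℝ, 0 < ε →
        ∃ (m : ℕ) (φ : AA z →ₗ[ℂ] Matrix (Fin m) (Fin m) ℂ)
          (ψ : Matrix (Fin m) (Fin m) ℂ →ₗ[ℂ] AA z),
          (∀ k : ℕ, ∀ B : Fin k → Fin k → AA z,
            ∃ C : Fin k → Fin k → Matrix (Fin m) (Fin m) ℂ,
              ∀ i j, φ (∑ l, star (B l i) * B l j) = ∑ l, star (C l i) * C l j) ∧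
          (∀ k : ℕ, ∀ B : Fin k → Fin k → Matrix (Fin m) (Fin m) ℂ,
            ∃ C : Fin k → Fin k → AA z,
              ∀ i j, ψ (∑ l, star (B l i) * B l j) = ∑ l, star (C l i) * C l j) ∧
          (∀ x : AA z, ‖Matrix.toEuclideanCLM (𝕜 := ℂ) (φ x)‖ ≤ ‖x‖) ∧
          (∀ M : Matrix (Fin m) (Fin m) ℂ, ‖ψ M‖ ≤ ‖Matrix.toEuclideanCLM (𝕜 := ℂ) M‖) ∧
          ∀ x ∈ F, ‖ψ (φ x) - x‖ < ε)

/-! ### Anti-representations of the first algebra on the first block -/

/-- data: the matrices of the images of the finitely many elements, and the point of `S^3` -/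
abbrev EE := (DI → Lab → Lab → ℂ) × CSph 1

/-- the action of `ℤ/3` on the data -/
def act (e : EE) : EE :=
  (fun d α β => om ^ wt α * conj om ^ wt β * e.1 d α β, rotS e.2)

/-- fixed label on `S^3` -/
def uu : CSph 1 → ZMod 3 := Classical.epsilon (fun u => ∀ x, u (rotS x) = u x + 1)

/-- the matrix of the image of an element -/
def RM (e : EE) (d : DI) : Matrix Lab Lab ℂ := Matrix.of (e.1 d)

/-- The relations satisfied by a star-preserving, product reversing map on the elements of the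
first algebra. -/
structure Rel (e : EE) : Prop where
  star_a : ∀ k l, star (RM e (.ea k l)) = RM e (.ea l k)
  mul_a : ∀ k l k' l', RM e (.ea k l) * RM e (.ea k' l')
    = if l' = k then RM e (.ea k' l) else 0
  star_j : ∀ j k l, star (RM e (.ej j k l)) = RM e (.ej j l k)
  mul_j : ∀ j k l k' l', RM e (.ej j k l) * RM e (.ej j k' l')
    = if l' = k then RM e (.ej j k' l) else 0
  mul_jj : ∀ j j' k l k' l', j ≠ j' → RM e (.ej j k l) * RM e (.ej j' k' l') = 0
  mul_aj : ∀ j k l k' l', RM e (.ea k l) * RM e (.ej j k' l') = 0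
  mul_ja : ∀ j k l k' l', RM e (.ej j k l) * RM e (.ea k' l') = 0
  t_a : ∀ β, RM e (.tt β) * RM e (.ea k0 k0) = RM e (.tt β)
  a_t : ∀ β k l, RM e (.ea k l) * RM e (.tt β) = 0
  j_t : ∀ β j k l, RM e (.ej j k l) * RM e (.tt β) = 0
  t_t : ∑ β, star (RM e (.tt β)) * RM e (.tt β) = RM e (.ea k0 k0)
  t_c : (star (RM e (.tt 0)) * RM e (.tt 0)) * (star (RM e (.tt 1)) * RM e (.tt 1))
    = (star (RM e (.tt 0)) * RM e (.tt 1)) * (star (RM e (.tt 1)) * RM e (.tt 0))
  one : ∑ k, RM e (.ea k k) + ∑ β, RM e (.tt β) * star (RM e (.tt β))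
    + ∑ j, ∑ k, RM e (.ej j k k) = 1
  star_c : ∀ j, star (RM e (.cc j)) = RM e (.cc j)
  star_c' : ∀ j, star (RM e (.cd j)) = RM e (.cd j)
  c_a : ∀ j, RM e (.cc j) * RM e (.ea k0 k0) = RM e (.cc j)
  c_a' : ∀ j, RM e (.cd j) * RM e (.ea k0 k0) = RM e (.cd j)
  c_c : ∀ j, RM e (.cc j) * RM e (.cd j) = 0
  c_t : ∀ j, RM e (.cc j) * RM e (.cc j) - RM e (.cd j) * RM e (.cd j)
    = sg j 0 • (star (RM e (.tt 1)) * RM e (.tt 0) + star (RM e (.tt 0)) * RM e (.tt 1))
      - (sg j 1 * Complex.I) •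
        (star (RM e (.tt 1)) * RM e (.tt 0) - star (RM e (.tt 0)) * RM e (.tt 1))
      + sg j 2 • (star (RM e (.tt 0)) * RM e (.tt 0) - star (RM e (.tt 1)) * RM e (.tt 1))
  b_a : ∀ j, RM e (.bb j) * RM e (.ea k0 k0) = RM e (.bb j)
  j_b : ∀ j, RM e (.ej j (j0 j) (j0 j)) * RM e (.bb j) = RM e (.bb j)
  b_b : ∀ j, star (RM e (.bb j)) * RM e (.bb j)
    = RM e (.cc j) * RM e (.cc j) * (RM e (.cc j) * RM e (.cc j))
  bd : ∀ j d α β, bf j e.2 = 0 → mis j α β → e.1 d α β = 0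

/-- MODULE UU -/
def UUStmt : Prop := ∀ x : CSph 1, uu (rotS x) = uu x + 1

/-- the entry of the element `d` of the first algebra -/
def dent (d : DI) (α β : Lab) (y : CSph 1) : ℂ := by
  classical
  exact match d with
  | .ea k l => if α = la k ∧ β = la l then 1 else 0
  | .ej j k l => if α = ls j k ∧ β = ls j l then 1 else 0
  | .tt γ => if α = la k0 ∧ β = lstar then conj (y.1 γ) else 0
  | .cc j => if α = la k0 ∧ β = la k0 then (Real.sqrt (bf j y) : ℂ) else 0
  | .cd j => if α = la k0 ∧ β = la k0 then (Real.sqrt (bf' j y) : ℂ) else 0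
  | .bb j => if α = la k0 ∧ β = ls j (j0 j) then (bf j y : ℂ) else 0

open Classical in
/-- the elements of the first algebra -/
def delem (z : ℕ → SS) (d : DI) : BB :=
  Gam z 0 (fun s t => if h : Continuous (fun x : SS => dent d s.2 t.2 (x0 x))
    then ⟨fun x => dent d s.2 t.2 (x0 x), h⟩ else 0)

/-- MODULE DE: the elements are in the stage `0` -/
def DEStmt : Prop := ∀ (z : ℕ → SS) (d : DI),
  (∀ α β, Continuous (fun x : SS => dent d α β (x0 x))) ∧ delem z d ∈ Ak z 0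

/-- the common set where the elements `f d` commute with the projection on the first block -/
def Zs (f : DI → BB) : Set SS :=
  {x | ∀ (d : DI) (ω : Om) (α : Lab), (∃ i, ω.1 i ≠ none) →
    mc (f d x) ω (inj0 α) = 0 ∧ mc (f d x) (inj0 α) ω = 0}

/-- the data at the point `x` -/
def Phi (f : DI → BB) (x : SS) : EE := (fun d α β => mc (f d x) (inj0 α) (inj0 β), x0 x)

/-- MODULE NG -/
def NGStmt : Prop :=
  ∀ (z : ℕ → SS) (f : DI → BB), (∀ d, f d ∈ AA z) → ∀ δ : ℝ, 0 < δ →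
    ∀ κ : EE → EE → ZMod 9, (∀ e e', κ (act e) (act e') = κ e e') →
    (∀ e e' e'' : EE, (∃ x ∈ Zs f, dist e (Phi f x) < δ) → (∃ x ∈ Zs f, dist e' (Phi f x) < δ) →
      (∃ x ∈ Zs f, dist e'' (Phi f x) < δ) → dist e e' < δ → dist e' e'' < δ → dist e e'' < δ →
      κ e e' + κ e' e'' = κ e e'' ∧ ((κ e e').cast : ZMod 3) = uu e'.2 - uu e.2) → False

/-- MODULE CH -/
def CHStmt : Prop :=
  ∀ 𝓡 : Set EE, IsCompact 𝓡 → (∀ e ∈ 𝓡, act e ∈ 𝓡) → (∀ e ∈ 𝓡, Rel e) →
    ∃ δ : ℝ, 0 < δ ∧ ∃ κ : EE → EE → ZMod 9, (∀ e e', κ (act e) (act e') = κ e e') ∧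
    (∀ e e' e'' : EE, (∃ r ∈ 𝓡, dist e r < δ) → (∃ r ∈ 𝓡, dist e' r < δ) →
      (∃ r ∈ 𝓡, dist e'' r < δ) → dist e e' < δ → dist e' e'' < δ → dist e e'' < δ →
      κ e e' + κ e' e'' = κ e e'' ∧ ((κ e e').cast : ZMod 3) = uu e'.2 - uu e.2)

/-- MODULE RE: the relations hold -/
def REStmt : Prop :=
  ∀ (z : ℕ → SS) (hm : ∀ d, delem z d ∈ AA z) (f : AA z ≃ₗ[ℂ] AA z),
    (∀ x y : AA z, f (x * y) = f y * f x) → (∀ x : AA z, f (star x) = star (f x)) →
    ∀ x ∈ Zs (fun d => ((f ⟨delem z d, hm d⟩ : AA z) : BB)),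
      Rel (Phi (fun d => ((f ⟨delem z d, hm d⟩ : AA z) : BB)) x)

end

end Pool.OP
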