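import Pool.Agent.H53.OPP.CDefs

/-!
# Frames: splitting of the module CH into CHA (algebra) and CHB (topology)
-/

set_option autoImplicit false

namespace Pool.OP

open scoped Topology ComplexConjugate Matrix

noncomputable section

/-- Gram matrix of the vectors `T_β v`: `c_{γβ} = tr (T_γ^* T_β)` -/
def cf (e : EE) : Fin 2 → Fin 2 → ℂ :=
  fun γ β => Matrix.trace (star (RM e (.tt γ)) * RM e (.tt β))

/-- the vector `c x` -/
def cx (e : EE) (γ : Fin 2) : ℂ := ∑ β, cf e γ β * e.2.1 β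

/-- its norm -/
def nrm (e : EE) : ℝ := Real.sqrt (‖cx e 0‖ ^ 2 + ‖cx e 1‖ ^ 2)

/-- the unit vector `y = c x / ‖c x‖` -/
def yv (e : EE) (γ : Fin 2) : ℂ := cx e γ / (nrm e : ℂ)

/-- `(v, (v_j))` is a frame for `e` -/
structure Fr (e : EE) (v : Lab → ℂ) (vj : Fin 4 → Lab → ℂ) : Prop where
  unit : star v ⬝ᵥ v = 1
  unitj : ∀ j, star (vj j) ⬝ᵥ vj j = 1
  ra : RM e (.ea k0 k0) = Matrix.vecMulVec v (star v)
  rj : ∀ j, RM e (.ej j (j0 j) (j0 j)) = Matrix.vecMulVec (vj j) (star (vj j))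

/-- the vector `w = ∑ y_β T_β v` -/
def wv (e : EE) (v : Lab → ℂ) : Lab → ℂ := ∑ β, yv e β • (RM e (.tt β) *ᵥ v)

/-- the columns of the matrix `Θ` -/
def col (e : EE) (v : Lab → ℂ) (vj : Fin 4 → Lab → ℂ) : Lab → Lab → ℂ
  | Sum.inl i => if h : (i : ℕ) < da then RM e (.ea k0 ⟨i, h⟩) *ᵥ v else wv e v
  | Sum.inr p => RM e (.ej p.1 (j0 p.1) p.2) *ᵥ vj p.1

/-- the matrix `Θ` -/
def Th (e : EE) (v : Lab → ℂ) (vj : Fin 4 → Lab → ℂ) : Matrix Lab Lab ℂ :=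
  Matrix.of fun α β => col e v vj β α

/-- the diagonal unitary `V` -/
def Vd : Matrix Lab Lab ℂ := Matrix.diagonal fun α => om ^ wt α

/-- `V v` -/
def Vv (v : Lab → ℂ) : Lab → ℂ := fun α => om ^ wt α * v α

/-- MODULE CHA -/
def CHAStmt : Prop :=
  (∀ e : EE, Rel e → Rel (act e)) ∧
  (∀ e : EE, Rel e → nrm e ≠ 0 ∧ (∃ v vj, Fr e v vj) ∧
    ∀ v vj, Fr e v vj → star (Th e v vj) * Th e v vj = 1 ∧
      Fr (act e) (Vv v) (fun j => Vv (vj j)) ∧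
      Th (act e) (Vv v) (fun j => Vv (vj j)) = Vd * Th e v vj * Vd) ∧
  (∀ (e : EE) (v : Lab → ℂ) (vj : Fin 4 → Lab → ℂ) (l : ℂ) (lj : Fin 4 → ℂ),
    (Th e (l • v) (fun j => lj j • vj j)).det
      = l ^ 93 * lj 0 ^ 90 * lj 1 ^ 84 * lj 2 ^ 72 * lj 3 ^ 48 * (Th e v vj).det) ∧
  Vd.det = om

end

end Pool.OP
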