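import Pool.Agent.H53.OPP.CDefs

/-!
# Final assembly from the module statements
-/

set_option autoImplicit false

namespace Pool.OP

open scoped Topology ComplexConjugate

noncomputable section

theorem x0_rot_zero (x : SS) : x0 (rot 0 x) = rotS (x0 x) := by
  unfold x0 rot
  rw [Function.update_self]
  rfl

theorem x0_rot_succ (l : ℕ) (x : SS) : x0 (rot (l + 1) x) = x0 x := by
  unfold x0 rot
  rw [Function.update_of_ne (by omega)]

theorem continuous_x0 : Continuous x0 := continuous_apply 0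

theorem wl_inj0 (l : ℕ) (α : Lab) : wl (l + 1) (inj0 α) = 0 := by
  unfold wl inj0
  simp

theorem Phi_rot (hCO : COStmt) (z : ℕ → SS) (f : DI → BB) (hf : ∀ d, f d ∈ AA z) (x : SS) :
    Phi f (rot 0 x) = act (Phi f x) := by
  unfold Phi act
  refine Prod.ext ?_ (x0_rot_zero x)
  funext d α β
  change mc (f d (rot 0 x)) (inj0 α) (inj0 β) = _
  rw [((hCO z).1 (f d) (hf d) x _ _).1 0]
  rfl

theorem Phi_cont (hCO : COStmt) (z : ℕ → SS) (f : DI → BB) : Continuous (Phi f) := by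
  unfold Phi
  refine Continuous.prodMk ?_ continuous_x0
  refine continuous_pi fun d => continuous_pi fun α => continuous_pi fun β => ?_
  exact ((hCO z).2.2 _ _).2.2 (f d)

theorem Zs_closed (hCO : COStmt) (z : ℕ → SS) (f : DI → BB) : IsClosed (Zs f) := by
  have : Zs f = ⋂ (d : DI), ⋂ (ω : Om), ⋂ (α : Lab), ⋂ (_ : ∃ i, ω.1 i ≠ none),
      {x | mc (f d x) ω (inj0 α) = 0 ∧ mc (f d x) (inj0 α) ω = 0} := by
    ext x
    simp only [Zs, Set.mem_ofPred_eq, Set.mem_iInter]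
  rw [this]
  refine isClosed_iInter fun d => isClosed_iInter fun ω => isClosed_iInter fun α =>
    isClosed_iInter fun _ => ?_
  exact (isClosed_eq (((hCO z).2.2 _ _).2.2 (f d)) continuous_const).inter
    (isClosed_eq (((hCO z).2.2 _ _).2.2 (f d)) continuous_const)

theorem Zs_rot (hCO : COStmt) (z : ℕ → SS) (f : DI → BB) (hf : ∀ d, f d ∈ AA z) (x : SS)
    (hx : x ∈ Zs f) : rot 0 x ∈ Zs f := by
  intro d ω α hω
  rw [((hCO z).1 (f d) (hf d) x _ _).1 0, ((hCO z).1 (f d) (hf d) x _ _).1 0,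
    (hx d ω α hω).1, (hx d ω α hω).2]
  simp

/-- no antiautomorphism -/
theorem no_anti (hST : STStmt) (hCO : COStmt) (hDE : DEStmt) (hNG : NGStmt) (hCH : CHStmt)
    (hRE : REStmt) (z : ℕ → SS) : ¬ ∃ f : AA z ≃ₗ[ℂ] AA z,
      (∀ x y : AA z, f (x * y) = f y * f x) ∧ ∀ x : AA z, f (star x) = star (f x) := by
  rintro ⟨f, hf1, hf2⟩
  have hm : ∀ d, delem z d ∈ AA z := by
    intro d
    apply StarSubalgebra.le_topologicalClosure
    change delem z d ∈ ((A0 z : StarSubalgebra ℂ BB) : Set BB)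
    rw [(hST z).2]
    exact Set.mem_iUnion.2 ⟨0, (hDE z d).2⟩
  set F : DI → BB := fun d => ((f ⟨delem z d, hm d⟩ : AA z) : BB) with hF
  have hFA : ∀ d, F d ∈ AA z := fun d => (f ⟨delem z d, hm d⟩).2
  obtain ⟨δ, hδ, κ, hκ1, hκ2⟩ := hCH (Phi F '' Zs F)
    ((Zs_closed hCO z F).isCompact.image (Phi_cont hCO z F))
    (by
      rintro _ ⟨x, hx, rfl⟩
      exact ⟨rot 0 x, Zs_rot hCO z F hFA x hx, Phi_rot hCO z F hFA x⟩)
    (by
      rintro _ ⟨x, hx, rfl⟩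
      exact hRE z hm f hf1 hf2 x hx)
  refine hNG z F hFA δ hδ κ hκ1 fun e e' e'' h1 h2 h3 => hκ2 e e' e'' ?_ ?_ ?_
  · obtain ⟨x, hx, h⟩ := h1
    exact ⟨_, ⟨x, hx, rfl⟩, h⟩
  · obtain ⟨x, hx, h⟩ := h2
    exact ⟨_, ⟨x, hx, rfl⟩, h⟩
  · obtain ⟨x, hx, h⟩ := h3
    exact ⟨_, ⟨x, hx, rfl⟩, h⟩

/-- the frozen statement, from the modules -/
theorem final (hST : STStmt) (hCO : COStmt) (hDE : DEStmt) (hNG : NGStmt) (hCH : CHStmt)
    (hRE : REStmt) (hZE : ZEStmt) (hSE : SEStmt) (hSI : SIStmt) (hNU : NUStmt) :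
    ∃ (A : Type) (_ : NonUnitalCStarAlgebra A),
      Nontrivial A ∧
      (∀ I : TwoSidedIdeal A, IsClosed (I : Set A) → I = ⊥ ∨ I = ⊤) ∧
      TopologicalSpace.SeparableSpace A ∧
      (∀ F : Finset A, ∀ ε : ℝ, 0 < ε →
        ∃ (m : ℕ) (φ : A →ₗ[ℂ] Matrix (Fin m) (Fin m) ℂ)
          (ψ : Matrix (Fin m) (Fin m) ℂ →ₗ[ℂ] A),
          (∀ k : ℕ, ∀ B : Fin k → Fin k → A,
            ∃ C : Fin k → Fin k → Matrix (Fin m) (Fin m) ℂ,
              ∀ i j, φ (∑ l, star (B l i) * B l j) = ∑ l, star (C l i) * C l j) ∧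
          (∀ k : ℕ, ∀ B : Fin k → Fin k → Matrix (Fin m) (Fin m) ℂ,
            ∃ C : Fin k → Fin k → A,
              ∀ i j, ψ (∑ l, star (B l i) * B l j) = ∑ l, star (C l i) * C l j) ∧
          (∀ x : A, ‖Matrix.toEuclideanCLM (𝕜 := ℂ) (φ x)‖ ≤ ‖x‖) ∧
          (∀ M : Matrix (Fin m) (Fin m) ℂ, ‖ψ M‖ ≤ ‖Matrix.toEuclideanCLM (𝕜 := ℂ) M‖) ∧
          ∀ x ∈ F, ‖ψ (φ x) - x‖ < ε) ∧
      ¬ ∃ f : A ≃ₗ[ℂ] A, (∀ x y : A, f (x * y) = f y * f x) ∧
        ∀ x : A, f (star x) = star (f x) := by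
  obtain ⟨z, hz⟩ := hZE
  refine ⟨AA z, inferInstance, (hSI z hz).1, fun I _ => (hSI z hz).2 I, hSE z, hNU z,
    no_anti hST hCO hDE hNG hCH hRE z⟩

end

end Pool.OP
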